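import Mathlib

set_option autoImplicit false

namespace Pool.Agent.Results.MP_93e4b7_co.Counter

open Finset Matrix

/-- The vector space `F_2^r`. -/
abbrev V (r : ℕ) := Fin r → ZMod 2

/-- Generator multiplicity function: its support (among nonzero vectors) spans `F_2^r`; the value
at `0` is ignored everywhere. -/
def IsGen {r : ℕ} (μ : V r → ℕ) : Prop := Submodule.span (ZMod 2) {u | u ≠ 0 ∧ μ u ≠ 0} = ⊤

/-- Laplacian of the Cayley graph. -/
def lap {r : ℕ} (μ : V r → ℕ) : Matrix (V r) (V r) ℤ := fun w w' =>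
  if w = w' then ∑ u with u ≠ 0, μ u else -μ (w' - w)

/-- The image of the Laplacian. -/
def im {r : ℕ} (μ : V r → ℕ) : Submodule ℤ (V r → ℤ) := LinearMap.range (lap μ).mulVecLin

/-- The cokernel of the Laplacian. -/
def Coker {r : ℕ} (μ : V r → ℕ) : Type := (V r → ℤ) ⧸ im μ

instance grp {r : ℕ} (μ : V r → ℕ) : AddCommGroup (Coker μ) :=
  Submodule.Quotient.addCommGroup (im μ)

/-- The sandpile group: torsion subgroup of the cokernel of the Laplacian. -/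
def K {r : ℕ} (μ : V r → ℕ) : AddSubgroup (Coker μ) := AddCommGroup.torsion (Coker μ)

/-- `GL`-equivalence of multiplicity functions. -/
def GLEquiv {r : ℕ} (μ ν : V r → ℕ) : Prop :=
  ∃ T : V r ≃ₗ[ZMod 2] V r, ∀ u ≠ 0, ν (T u) = μ u

def ix (u : V 2) : ℕ := (u 0).val + 2 * (u 1).val

def tb (l : List (List ℤ)) : Matrix (V 2) (V 2) ℤ := fun u w => (l.getD (ix u) []).getD (ix w) 0

theorem result : ∃ μ ν : V 2 → ℕ, (∀ u ≠ 0, μ u ≠ 0 ∧ ν u ≠ 0) ∧ IsGen μ ∧ IsGen ν ∧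
    Nonempty (K μ ≃+ K ν) ∧ ¬ GLEquiv μ ν := by
  let μ : V 2 → ℕ := fun u => [0, 1, 2, 8].getD (ix u) 0
  let ν : V 2 → ℕ := fun u => [0, 1, 4, 5].getD (ix u) 0
  have h : ∀ u ≠ 0, μ u ≠ 0 ∧ ν u ≠ 0 := by decide +kernel
  have g : ∀ μ : V 2 → ℕ, (∀ u ≠ 0, μ u ≠ 0) → IsGen μ := fun μ h => eq_top_iff.mpr fun u _ => by
    by_cases c : u = 0
    · simp [c]
    · exact Submodule.subset_span ⟨c, h u c⟩
  refine ⟨μ, ν, h, g _ fun u c => (h u c).1, g _ fun u c => (h u c).2, ?_, fun ⟨T, f⟩ => ?_⟩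
  · let P := tb [[1, 0, 0, 0], [113, 1, 3, -68], [-57, 0, -1, 35], [-56, 0, -1, 34]]
    let P' := tb [[1, 0, 0, 0], [21, 1, -34, 37], [-22, 0, 34, -35], [1, 0, 1, -1]]
    let Q := tb [[25, 0, -2, -22], [187, 1, -14, -173], [13, 0, -1, -11], [0, 0, 0, 1]]
    let Q' := tb [[-1, 0, 2, 0], [5, 1, -24, 19], [-13, 0, 25, -11], [0, 0, 0, 1]]
    have a : P * lap μ = lap ν * Q := by decide +kernel
    have b : P * (lap μ * Q') = lap ν := by decide +kernel
    let e : Coker μ ≃+ Coker ν := (Submodule.Quotient.equiv (im μ) (im ν)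
      (Matrix.toLin'OfInv (M := P') (M' := P) (by decide +kernel) (by decide +kernel)) (by
        ext x
        simp only [im, Submodule.mem_map, LinearMap.mem_range, mulVecLin_apply]
        refine ⟨fun ⟨_, ⟨y, rfl⟩, f⟩ => ⟨Q *ᵥ y, ?_⟩, fun ⟨y, f⟩ => ⟨_, ⟨Q' *ᵥ y, rfl⟩, ?_⟩⟩
        · rw [← f, mulVec_mulVec, ← a, ← mulVec_mulVec]; exact (Matrix.toLin'_apply P _).symm
        · rw [← f, mulVec_mulVec, ← b, ← mulVec_mulVec (M := P)]; exact Matrix.toLin'_apply P _)).toAddEquiv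
    refine ⟨(e.addSubgroupMap _).trans (AddEquiv.addSubgroupCongr (AddSubgroup.ext fun x => ?_))⟩
    obtain ⟨x, rfl⟩ := e.surjective x
    exact (AddSubgroup.mem_map_iff_mem e.injective).trans
      (e.injective.isOfFinAddOrder_iff (f := e.toAddMonoidHom)).symm
  · exact (by decide +kernel : ∀ u, ν u ≠ μ ![1, 1]) _ (f _ (by decide))

end Pool.Agent.Results.MP_93e4b7_co.Counter
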